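import Pool.Agent.Results.MP_a70c31_an.UpperBound06125

/-!
`MP_58b66c_an`: every limit (even every lower limit) of (maximum term) / (maximum modulus) of a
transcendental entire function is at most `49/80 = 0.6125`, so the answer to Q1 is no for all
`C > 49/80`.
-/

open Filter Topology

namespace Pool.Agent.Results.MP_58b66c_an.LimitsAtMost06125

open Pool.Agent.H792R3.BB

/-- For `C > 49/80` there is no transcendental entire function `f` with `m(r)/M(r,f) → C`; moreover
`m(r)/M(r,f) < C` for arbitrarily large `r`. -/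
theorem result (C : ℝ) (hC : 49 / 80 < C) (f : ℂ → ℂ) (hf : Differentiable ℂ f)
    (hp : ¬ ∃ p : Polynomial ℂ, ∀ z, f z = p.eval z) :
    (¬ Tendsto (fun r : ℝ =>
      (⨆ n : ℕ, ‖iteratedDeriv n f 0 / (n.factorial : ℂ)‖ * r ^ n) /
        sSup ((fun z => ‖f z‖) '' Metric.sphere (0 : ℂ) r)) atTop (𝓝 C)) ∧
    ∃ᶠ r : ℝ in atTop, (⨆ n : ℕ, ‖iteratedDeriv n f 0 / (n.factorial : ℂ)‖ * r ^ n) /
        sSup ((fun z => ‖f z‖) '' Metric.sphere (0 : ℂ) r) < C := by
  have key : ∃ᶠ r : ℝ in atTop, (⨆ n : ℕ, ‖iteratedDeriv n f 0 / (n.factorial : ℂ)‖ * r ^ n) /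
        sSup ((fun z => ‖f z‖) '' Metric.sphere (0 : ℂ) r) ≤ 49 / 80 := by
    have h1 := Pool.Agent.Results.MP_a70c31_an.UpperBound06125.uf f ⟨hf, hp⟩
    have h2 : ∀ᶠ r : ℝ in atTop, 0 < r := eventually_gt_atTop 0
    refine (h1.and_eventually h2).mono ?_
    rintro r ⟨hr, hr0⟩
    obtain ⟨_, hmu, hle, _⟩ := t_CY f ⟨hf, hp⟩ r hr0
    have hM : 0 < maxMod f r := lt_of_lt_of_le hmu hle
    have h3 : mu f r / maxMod f r ≤ 49 / 80 := by
      rw [div_le_iff₀ hM]
      exact hr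
    exact h3
  constructor
  · intro hT
    have h4 := hT.eventually (lt_mem_nhds hC)
    obtain ⟨r, h5, h6⟩ := (key.and_eventually h4).exists
    linarith
  · exact key.mono fun r hr => hr.trans_lt hC

end Pool.Agent.Results.MP_58b66c_an.LimitsAtMost06125
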